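import Mathlib

/-!
# Fine normal ultrafilters on `P_κ(κ⁺)` do not have the Galvin property for `2 ^ κ⁺` sets

Let `U` be a fine normal ultrafilter on `P_κ(κ⁺)`. For every unbounded `b ⊆ κ⁺` the set
`A b` of all `x` such that `b ∩ x` is cofinal in `x` belongs to `U`: otherwise for almost all `x`
some `f x ∈ x` bounds `b ∩ x` strictly, `f` is constant on a set of `U` by normality, and
almost every `x` contains an element of `b` above this constant by fineness. If `T` is a family of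
`κ` many unbounded sets whose pairwise intersections are bounded, these intersections have a common
bound `β < κ⁺`; for `x ∋ β` in all the `A b`, `b ∈ T`, the `κ` many sets `b ∩ x \ β` are nonempty
and pairwise disjoint, which contradicts `|x| < κ`. So every almost disjoint family of `λ` subsets
of `κ⁺` gives `λ` members of `U` such that no `κ` many of them have their intersection in `U`.
-/

set_option autoImplicit false

namespace Pool.Agent.Results.MP_a3089e_lc.NotGalvin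

open Cardinal Set
open scoped Ordinal

universe u

/-- `P_κ(X)`, the type of the subsets of `X` of cardinality less than `κ`. -/
abbrev PK (κ : Cardinal.{u}) (X : Type u) : Type u := {x : Set X // #x < κ}

/-- `U` is a `κ`-complete fine normal ultrafilter on `P_κ(X)`. -/
structure FineNormal (κ : Cardinal.{u}) (X : Type u) (U : Ultrafilter (PK κ X)) : Prop where
  complete : ∀ S : Set (Set (PK κ X)), #S < κ → (∀ s ∈ S, s ∈ U) → ⋂₀ S ∈ U
  fine : ∀ a : X, {x : PK κ X | a ∈ x.1} ∈ U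
  normal : ∀ f : PK κ X → X, {x : PK κ X | f x ∈ x.1} ∈ U → ∃ a : X, {x | f x = a} ∈ U

/-- `Gal(U, μ, lam)`: every family of `lam` many members of `U` has a subfamily of `μ` many members
whose intersection is in `U`. -/
def Gal {P : Type u} (U : Ultrafilter P) (μ lam : Cardinal.{u}) : Prop :=
  ∀ S : Set (Set P), (∀ s ∈ S, s ∈ U) → #S = lam → ∃ T ⊆ S, #T = μ ∧ ⋂₀ T ∈ U

/-- An almost disjoint family of subsets of `X`, where `|X| = κ⁺`: the members have cardinality
`κ⁺`, the intersection of two different members has cardinality at most `κ`. -/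
def AD (κ : Cardinal.{u}) {X : Type u} (B : Set (Set X)) : Prop :=
  (∀ b ∈ B, #b = Order.succ κ) ∧ ∀ b ∈ B, ∀ c ∈ B, b ≠ c → #(b ∩ c : Set X) ≤ κ

section main

variable {κ : Cardinal.{u}} {X : Type u} [LinearOrder X] [WellFoundedLT X]

theorem mk_Iic_le (hX : #X = Order.succ κ) (h : ord #X = typeLT X) (hκ : ℵ₀ ≤ κ) (i : X) :
    #(Iic i) ≤ κ := by
  have h1 := mk_Iic_lt i h (by rw [hX]; exact hκ.trans (Order.le_succ κ))
  rw [hX] at h1
  exact Order.lt_succ_iff.1 h1

/-- Sets of cardinality `κ⁺` are unbounded. -/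
theorem exists_gt (hX : #X = Order.succ κ) (h : ord #X = typeLT X) (hκ : ℵ₀ ≤ κ)
    {b : Set X} (hb : #b = Order.succ κ) (i : X) : ∃ c ∈ b, i < c := by
  by_contra hcon
  push Not at hcon
  have h1 : #b ≤ κ := (mk_le_mk_of_subset (show b ⊆ Iic i from hcon)).trans (mk_Iic_le hX h hκ i)
  rw [hb] at h1
  exact absurd h1 (not_le.2 (Order.lt_succ κ))

/-- Sets of cardinality at most `κ` are bounded. -/
theorem exists_bound (hX : #X = Order.succ κ) (h : ord #X = typeLT X) (hκ : ℵ₀ ≤ κ)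
    {s : Set X} (hs : #s ≤ κ) : ∃ i, ∀ c ∈ s, c < i := by
  by_contra hcon
  push Not at hcon
  have h1 : (univ : Set X) ⊆ ⋃ c : s, Iic (c : X) := by
    intro i _
    obtain ⟨c, hc, hic⟩ := hcon i
    exact mem_iUnion.2 ⟨⟨c, hc⟩, hic⟩
  have h2 : #X ≤ κ := by
    rw [← mk_univ]
    refine (mk_le_mk_of_subset h1).trans ((mk_iUnion_le _).trans ?_)
    refine (mul_le_mul' hs (ciSup_le' fun c : s => mk_Iic_le hX h hκ (c : X))).trans ?_
    rw [mul_eq_self hκ]
  rw [hX] at h2
  exact absurd h2 (not_le.2 (Order.lt_succ κ))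

/-- The set of the `x` in `P_κ(X)` such that `b ∩ x` is cofinal in `x`. -/
def A (κ : Cardinal.{u}) (b : Set X) : Set (PK κ X) := {x | ∀ a ∈ x.1, ∃ c ∈ b, c ∈ x.1 ∧ a ≤ c}

theorem A_mem (hX : #X = Order.succ κ) (h : ord #X = typeLT X) (hκ : ℵ₀ ≤ κ)
    {U : Ultrafilter (PK κ X)} (hU : FineNormal κ X U) {b : Set X} (hb : #b = Order.succ κ) :
    A κ b ∈ U := by
  classical
  by_contra hcon
  have hcon' : (A κ b)ᶜ ∈ U := Ultrafilter.compl_mem_iff_notMem.2 hcon
  have hne : Nonempty X := by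
    rw [← mk_ne_zero_iff, hX]
    exact (Order.succ_ne_bot κ)
  have hex : ∀ x : PK κ X, ∃ a : X, x ∈ (A κ b)ᶜ → a ∈ x.1 ∧ ∀ c ∈ b, c ∈ x.1 → c < a := by
    intro x
    by_cases hx : x ∈ (A κ b)ᶜ
    · simp only [A, mem_compl_iff, mem_ofPred_eq, not_forall, not_exists, not_and, not_le] at hx
      obtain ⟨a, ha, hac⟩ := hx
      exact ⟨a, fun _ => ⟨ha, hac⟩⟩
    · exact ⟨hne.some, fun h => absurd h hx⟩
  choose f hf using hex
  obtain ⟨a, ha⟩ := hU.normal f (Filter.mem_of_superset hcon' fun x hx => (hf x hx).1)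
  obtain ⟨c, hc, hac⟩ := exists_gt hX h hκ hb a
  obtain ⟨x, ⟨hx1, hx2⟩, hx3⟩ :=
    U.nonempty_of_mem (Filter.inter_mem (Filter.inter_mem hcon' ha) (hU.fine c))
  have h1 := (hf x hx1).2 c hc hx3
  rw [show f x = a from hx2] at h1
  exact absurd h1 (not_lt.2 hac.le)

omit [WellFoundedLT X] in
theorem A_injective (hκ : ℵ₀ ≤ κ) : Function.Injective (A (X := X) κ) := by
  have key : ∀ b c : Set X, A κ b = A κ c → b ⊆ c := by
    intro b c hbc z hz
    have h1 : (⟨{z}, by rw [mk_singleton]; exact one_lt_aleph0.trans_le hκ⟩ : PK κ X) ∈ A κ b := by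
      intro a ha
      exact ⟨z, hz, rfl, le_of_eq ha⟩
    rw [hbc] at h1
    obtain ⟨w, hw, hw', -⟩ := h1 z rfl
    rwa [show w = z from hw'] at hw
  exact fun b c hbc => (key b c hbc).antisymm (key c b hbc.symm)

/-- The main argument. -/
theorem notGal_of_AD' (hX : #X = Order.succ κ) (h : ord #X = typeLT X) (hκ : ℵ₀ ≤ κ)
    {U : Ultrafilter (PK κ X)} (hU : FineNormal κ X U) {B : Set (Set X)} (hB : AD κ B) :
    ∃ S : Set (Set (PK κ X)), (∀ s ∈ S, s ∈ U) ∧ #S = #B ∧
      ∀ T ⊆ S, #T = κ → ⋂₀ T ∉ U := by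
  classical
  refine ⟨A κ '' B, ?_, mk_image_eq (A_injective hκ), ?_⟩
  · rintro _ ⟨b, hb, rfl⟩
    exact A_mem hX h hκ hU (hB.1 b hb)
  intro T hTS hT hTU
  have hTS' : ∀ t : T, ∃ b : Set X, b ∈ B ∧ A κ b = t := fun t => hTS t.2
  choose g hg using hTS'
  have hbd : ∀ p : T × T, ∃ i : X, p.1 ≠ p.2 → ∀ c ∈ g p.1 ∩ g p.2, c < i := by
    rintro ⟨t, t'⟩
    by_cases htt : t = t'
    · have hne : Nonempty X := by
        rw [← mk_ne_zero_iff, hX]
        exact (Order.succ_ne_bot κ)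
      exact ⟨hne.some, fun h => absurd htt h⟩
    · have hgg : g t ≠ g t' := by
        intro hgg
        apply htt
        apply Subtype.ext
        rw [← (hg t).2, ← (hg t').2, hgg]
      obtain ⟨i, hi⟩ := exists_bound hX h hκ (hB.2 _ (hg t).1 _ (hg t').1 hgg)
      exact ⟨i, fun _ => hi⟩
  choose β hβ using hbd
  have hr : #(range β) ≤ κ := by
    refine mk_range_le.trans ?_
    rw [mk_prod, lift_id, hT, mul_eq_self hκ]
  obtain ⟨i, hi⟩ := exists_bound hX h hκ hr
  obtain ⟨x, hxT, hix⟩ := U.nonempty_of_mem (Filter.inter_mem hTU (hU.fine i))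
  have hex : ∀ t : T, ∃ c : x.1, (c : X) ∈ g t ∧ i ≤ c := by
    intro t
    have h1 : x ∈ A κ (g t) := by
      rw [(hg t).2]
      exact hxT t t.2
    obtain ⟨c, hc1, hc2, hc3⟩ := h1 i hix
    exact ⟨⟨c, hc2⟩, hc1, hc3⟩
  choose c hc using hex
  have hinj : Function.Injective c := by
    intro t t' htt
    by_contra hne
    have h1 := hβ (t, t') hne (c t) ⟨(hc t).1, by rw [htt]; exact (hc t').1⟩
    have h2 := hi _ ⟨(t, t'), rfl⟩
    exact absurd ((hc t).2) (not_le.2 (h1.trans h2))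
  have h3 := mk_le_of_injective hinj
  rw [hT] at h3
  exact absurd x.2 (not_lt.2 h3)

/-- A maximal almost disjoint family has more than `κ⁺` members. -/
theorem exists_AD' (hX : #X = Order.succ κ) (h : ord #X = typeLT X) (hκ : ℵ₀ ≤ κ) :
    ∃ B : Set (Set X), AD κ B ∧ #B = Order.succ (Order.succ κ) := by
  classical
  have hX0 : ℵ₀ ≤ #X := by rw [hX]; exact hκ.trans (Order.le_succ κ)
  -- a disjoint family
  obtain ⟨e⟩ : Nonempty (X ≃ X × X) := by
    rw [← Cardinal.eq, mk_prod, lift_id, mul_eq_self hX0]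
  let B₀ : Set (Set X) := range fun a : X => {x | (e x).1 = a}
  have hrow : ∀ a : X, #({x | (e x).1 = a} : Set X) = Order.succ κ := by
    intro a
    rw [← hX]
    refine le_antisymm (mk_set_le _) ?_
    refine mk_le_of_injective (f := fun y : X => (⟨e.symm (a, y), by simp⟩ :
      ({x | (e x).1 = a} : Set X))) ?_
    intro y y' hy
    have h1 : e.symm (a, y) = e.symm (a, y') := congrArg Subtype.val hy
    have h2 := e.symm.injective h1
    exact (Prod.ext_iff.1 h2).2
  have hB₀ : AD κ B₀ := by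
    refine ⟨?_, ?_⟩
    · rintro _ ⟨a, rfl⟩
      exact hrow a
    · rintro _ ⟨a, rfl⟩ _ ⟨a', rfl⟩ hne
      have : ({x | (e x).1 = a} ∩ {x | (e x).1 = a'} : Set X) = ∅ := by
        ext x
        simp only [mem_inter_iff, mem_ofPred_eq, mem_empty_iff_false, iff_false, not_and]
        rintro rfl rfl
        exact hne rfl
      rw [this, mk_eq_zero]
      exact zero_le
  have hB₀c : Order.succ κ ≤ #B₀ := by
    rw [← hX]
    refine mk_le_of_injective (f := fun a : X => (⟨{x | (e x).1 = a}, a, rfl⟩ : B₀)) ?_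
    intro a a' haa
    have h1 : ({x | (e x).1 = a} : Set X) = {x | (e x).1 = a'} := congrArg Subtype.val haa
    have h2 : e.symm (a, a) ∈ ({x | (e x).1 = a} : Set X) := by simp
    rw [h1] at h2
    simpa using h2
  obtain ⟨B, hB0, hBmax⟩ := zorn_subset_nonempty {B : Set (Set X) | AD κ B}
    (by
      intro C hC hchain hCne
      refine ⟨⋃₀ C, ⟨?_, ?_⟩, fun s hs => subset_sUnion_of_mem hs⟩
      · rintro b ⟨s, hs, hbs⟩
        exact (hC hs).1 b hbs
      · rintro b ⟨s, hs, hbs⟩ c ⟨t, ht, hct⟩ hbc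
        rcases hchain.total hs ht with hst | hst
        · exact (hC ht).2 b (hst hbs) c hct hbc
        · exact (hC hs).2 b hbs c (hst hct) hbc) B₀ hB₀
  have hBAD : AD κ B := hBmax.1
  suffices hlarge : Order.succ (Order.succ κ) ≤ #B by
    obtain ⟨B', hB'⟩ := le_mk_iff_exists_set.1 hlarge
    refine ⟨Subtype.val '' B', ⟨?_, ?_⟩, ?_⟩
    · rintro _ ⟨b, -, rfl⟩
      exact hBAD.1 b b.2
    · rintro _ ⟨b, -, rfl⟩ _ ⟨c, -, rfl⟩ hbc
      exact hBAD.2 b b.2 c c.2 hbc
    · rw [mk_image_eq Subtype.val_injective, hB']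
  by_contra hsmall
  rw [not_le, Order.lt_succ_iff] at hsmall
  have hcard : #X = #B := by
    rw [hX]
    exact le_antisymm (hB₀c.trans (mk_le_mk_of_subset hB0)) hsmall
  obtain ⟨n⟩ := Cardinal.eq.1 hcard
  -- diagonalise
  have hex : ∀ α : X, ∃ d ∈ (n α : Set X), ∀ γ < α, d ∉ (n γ : Set X) := by
    intro α
    by_contra hcon
    push Not at hcon
    have h1 : (n α : Set X) ⊆ ⋃ γ : Iio α, ((n α : Set X) ∩ n γ) := by
      intro d hd
      obtain ⟨γ, hγ, hdγ⟩ := hcon d hd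
      exact mem_iUnion.2 ⟨⟨γ, hγ⟩, hd, hdγ⟩
    have h2 : #(n α : Set X) ≤ κ := by
      refine (mk_le_mk_of_subset h1).trans ((mk_iUnion_le _).trans ?_)
      refine (mul_le_mul' ((mk_le_mk_of_subset Iio_subset_Iic_self).trans
        (mk_Iic_le hX h hκ α)) (ciSup_le' fun γ => ?_)).trans (mul_eq_self hκ).le
      refine hBAD.2 _ (n α).2 _ (n γ).2 fun hne => ?_
      have h3 := n.injective (Subtype.ext hne)
      exact absurd γ.2 (by rw [← h3]; exact lt_irrefl _)
    rw [hBAD.1 _ (n α).2] at h2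
    exact absurd h2 (not_le.2 (Order.lt_succ κ))
  choose d hd1 hd2 using hex
  have hdinj : Function.Injective d := by
    intro α γ hαγ
    rcases lt_trichotomy α γ with hlt | heq | hlt
    · exact absurd (hαγ ▸ hd1 α) (hd2 γ α hlt)
    · exact heq
    · exact absurd (hαγ ▸ hd1 γ) (hd2 α γ hlt)
  have hdcard : #(range d) = Order.succ κ := by
    rw [mk_range_eq d hdinj, hX]
  have hdad : ∀ b ∈ B, #(range d ∩ b : Set X) ≤ κ := by
    intro b hb
    obtain ⟨γ, hγ⟩ := n.surjective ⟨b, hb⟩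
    have h1 : (range d ∩ b : Set X) ⊆ d '' Iic γ := by
      rintro _ ⟨⟨α, rfl⟩, hα⟩
      refine ⟨α, ?_, rfl⟩
      by_contra hlt
      refine hd2 α γ (not_le.1 hlt) ?_
      rw [hγ]
      exact hα
    exact (mk_le_mk_of_subset h1).trans (mk_image_le.trans (mk_Iic_le hX h hκ γ))
  have hnew : AD κ (insert (range d) B) := by
    refine ⟨?_, ?_⟩
    · rintro b (rfl | hb)
      · exact hdcard
      · exact hBAD.1 b hb
    · rintro b (rfl | hb) c (rfl | hc) hbc
      · exact absurd rfl hbc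
      · exact hdad c hc
      · rw [inter_comm]
        exact hdad b hb
      · exact hBAD.2 b hb c hc hbc
  have hmem : range d ∈ B := hBmax.2 hnew (subset_insert _ _) (mem_insert _ _)
  have h1 := hdad _ hmem
  rw [inter_self, hdcard] at h1
  exact absurd h1 (not_le.2 (Order.lt_succ κ))

/-- If `2 ^ κ = κ⁺`, there is an almost disjoint family of cardinality `2 ^ κ⁺`. -/
theorem exists_AD_of_pow' (hX : #X = Order.succ κ) (h : ord #X = typeLT X) (hκ : ℵ₀ ≤ κ)
    (hpow : (2 : Cardinal.{u}) ^ κ = Order.succ κ) :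
    ∃ B : Set (Set X), AD κ B ∧ #B = (2 : Cardinal.{u}) ^ Order.succ κ := by
  classical
  have hX0 : ℵ₀ ≤ #X := by rw [hX]; exact hκ.trans (Order.le_succ κ)
  have hN : #(Σ β : X, Set (Iio β)) ≤ #X := by
    rw [mk_sigma]
    refine (sum_le_sum _ (fun _ => #X) fun β => ?_).trans ?_
    · rw [mk_set, hX, ← hpow]
      exact power_le_power_left two_ne_zero
        ((mk_le_mk_of_subset Iio_subset_Iic_self).trans (mk_Iic_le hX h hκ β))
    · simp only [sum_const, lift_id]
      exact (mul_eq_self hX0).le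
  obtain ⟨j⟩ := Cardinal.le_def _ _ |>.1 hN
  let b : Set X → Set X := fun f => range fun β : X => j ⟨β, Subtype.val ⁻¹' f⟩
  have hbc : ∀ f, #(b f) = Order.succ κ := by
    intro f
    rw [← hX]
    refine mk_range_eq _ ?_
    intro β β' hββ
    exact (Sigma.mk.inj_iff.1 (j.injective hββ)).1
  have hint : ∀ f g, f ≠ g → #(b f ∩ b g : Set X) ≤ κ := by
    intro f g hfg
    obtain ⟨γ, hγ⟩ : ∃ γ, ¬ (γ ∈ f ↔ γ ∈ g) := by
      by_contra hcon
      push Not at hcon
      exact hfg (Set.ext hcon)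
    have h1 : (b f ∩ b g : Set X) ⊆ (fun β : X => j ⟨β, Subtype.val ⁻¹' f⟩) '' Iic γ := by
      rintro _ ⟨⟨β, rfl⟩, β', hβ'⟩
      refine ⟨β, ?_, rfl⟩
      by_contra hlt
      rw [mem_Iic, not_le] at hlt
      obtain ⟨h2, h3⟩ := Sigma.mk.inj_iff.1 (j.injective hβ')
      subst h2
      have h4 := eq_of_heq h3
      have h5 : (⟨γ, hlt⟩ : Iio β') ∈ (Subtype.val ⁻¹' g : Set (Iio β')) ↔
          (⟨γ, hlt⟩ : Iio β') ∈ (Subtype.val ⁻¹' f : Set (Iio β')) := by rw [h4]
      exact hγ h5.symm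
    exact (mk_le_mk_of_subset h1).trans (mk_image_le.trans (mk_Iic_le hX h hκ γ))
  have hbinj : Function.Injective b := by
    intro f g hfg
    by_contra hne
    have h1 := hint f g hne
    rw [← hfg, inter_self, hbc] at h1
    exact absurd h1 (not_le.2 (Order.lt_succ κ))
  refine ⟨range b, ⟨?_, ?_⟩, ?_⟩
  · rintro _ ⟨f, rfl⟩
    exact hbc f
  · rintro _ ⟨f, rfl⟩ _ ⟨g, rfl⟩ hne
    exact hint f g fun h => hne (by rw [h])
  · rw [mk_range_eq b hbinj, mk_set, hX]

end main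

/-- Let `κ` be an uncountable cardinal, let `X` have cardinality `κ⁺` and let `U` be a `κ`-complete
fine normal ultrafilter on `P_κ(X)`. For every almost disjoint family `B` of subsets of `X` the
Galvin property `Gal(U, κ, |B|)` fails. Consequently `Gal(U, κ, κ⁺⁺)` fails, and `Gal(U, κ, 2 ^ κ⁺)`
fails if `2 ^ κ = κ⁺` or `2 ^ κ⁺ = κ⁺⁺`. -/
theorem result (κ : Cardinal.{0}) (X : Type) (hκ : ℵ₀ < κ) (hX : #X = Order.succ κ)
    (U : Ultrafilter (PK κ X)) (hU : FineNormal κ X U) :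
    (∀ B : Set (Set X), AD κ B → ¬ Gal U κ #B) ∧
    ¬ Gal U κ (Order.succ (Order.succ κ)) ∧
    ((2 : Cardinal.{0}) ^ κ = Order.succ κ ∨
      (2 : Cardinal.{0}) ^ Order.succ κ = Order.succ (Order.succ κ) →
      ¬ Gal U κ ((2 : Cardinal.{0}) ^ Order.succ κ)) := by
  obtain ⟨lo, wf, h⟩ := exists_ord_eq_type_lt X
  have hκ' := hκ.le
  have h1 : ∀ B : Set (Set X), AD κ B → ¬ Gal U κ #B := by
    intro B hB hGal
    obtain ⟨S, hS1, hS2, hS3⟩ := notGal_of_AD' hX h hκ' hU hB
    obtain ⟨T, hT1, hT2, hT3⟩ := hGal S hS1 hS2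
    exact hS3 T hT1 hT2 hT3
  have h2 : ¬ Gal U κ (Order.succ (Order.succ κ)) := by
    obtain ⟨B, hB, hBc⟩ := exists_AD' hX h hκ'
    rw [← hBc]
    exact h1 B hB
  refine ⟨h1, h2, ?_⟩
  rintro (hp | hp)
  · obtain ⟨B, hB, hBc⟩ := exists_AD_of_pow' hX h hκ' hp
    rw [← hBc]
    exact h1 B hB
  · rw [hp]
    exact h2

end Pool.Agent.Results.MP_a3089e_lc.NotGalvin
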